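import Mathlib
import Pool.Agent.W796.PH.Defs2

set_option autoImplicit false

namespace Pool.Agent.W345.PH.Decay

open MeasureTheory Metric Set Filter Topology Complex
open Pool.Agent.W796.PH

theorem vol_real_ball (z₀ : ℂ) (r : ℝ) (hr : 0 < r) :
    (volume (ball z₀ r)).toReal = Real.pi * r ^ 2 := by
  rw [Complex.volume_ball]
  rw [ENNReal.toReal_mul, ENNReal.toReal_pow, ENNReal.toReal_ofReal hr.le]
  simp
  ring

theorem avg_eq (z₀ : ℂ) (r : ℝ) (hr : 0 < r) {E : Type*} [NormedAddCommGroup E] [NormedSpace ℝ E]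
    (g : ℂ → E) : ⨍ z in ball z₀ r, g z = (Real.pi * r ^ 2)⁻¹ • ∫ z in ball z₀ r, g z := by
  rw [setAverage_eq, measureReal_def, vol_real_ball z₀ r hr]

theorem avg_osc (z₀ : ℂ) (r : ℝ) (hr : 0 < r) (f : ℂ → ℂ) (hf : IntegrableOn f (ball z₀ r))
    (a : ℂ) : ⨍ z in ball z₀ r, ‖f z - ⨍ w in ball z₀ r, f w‖ ≤
      2 * ⨍ z in ball z₀ r, ‖f z - a‖ := by
  set m : ℝ := Real.pi * r ^ 2 with hm
  have hmpos : 0 < m := by positivity
  have hvol : (volume (ball z₀ r)).toReal = m := vol_real_ball z₀ r hr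
  have hfin : volume (ball z₀ r) ≠ ⊤ := measure_ball_lt_top.ne
  have hconst : ∀ c : ℂ, IntegrableOn (fun _ : ℂ => c) (ball z₀ r) := fun c =>
    integrableOn_const hfin
  have hconstR : ∀ c : ℝ, IntegrableOn (fun _ : ℂ => c) (ball z₀ r) := fun c =>
    integrableOn_const hfin
  set av := ⨍ w in ball z₀ r, f w with hav
  have h1 : ‖av - a‖ ≤ m⁻¹ * ∫ z in ball z₀ r, ‖f z - a‖ := by
    have e1 : av - a = m⁻¹ • ∫ z in ball z₀ r, (f z - a) := by
      rw [integral_sub hf (hconst a), setIntegral_const, measureReal_def, hvol, smul_sub, smul_smul,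
        inv_mul_cancel₀ hmpos.ne', one_smul, hav, avg_eq z₀ r hr]
    rw [e1, norm_smul, Real.norm_of_nonneg (by positivity)]
    gcongr
    exact norm_integral_le_integral_norm _
  have hfa : IntegrableOn (fun z => ‖f z - a‖) (ball z₀ r) := (hf.sub (hconst a)).norm
  have h2 : ∫ z in ball z₀ r, ‖f z - av‖ ≤ (∫ z in ball z₀ r, ‖f z - a‖) + m * ‖av - a‖ := by
    have e2 : (∫ z in ball z₀ r, ‖f z - a‖) + m * ‖av - a‖ =
        ∫ z in ball z₀ r, (‖f z - a‖ + ‖av - a‖) := by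
      rw [integral_add hfa (hconstR _), setIntegral_const, measureReal_def,
        hvol, smul_eq_mul]
    rw [e2]
    apply integral_mono ((hf.sub (hconst av)).norm)
      (hfa.add (hconstR _))
    intro z
    change ‖f z - av‖ ≤ ‖f z - a‖ + ‖av - a‖
    have : f z - av = (f z - a) - (av - a) := by ring
    rw [this]
    exact norm_sub_le _ _
  rw [avg_eq z₀ r hr, avg_eq z₀ r hr, smul_eq_mul, smul_eq_mul, ← hm]
  have h3 : m * ‖av - a‖ ≤ ∫ z in ball z₀ r, ‖f z - a‖ := by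
    calc m * ‖av - a‖ ≤ m * (m⁻¹ * ∫ z in ball z₀ r, ‖f z - a‖) := by gcongr
      _ = ∫ z in ball z₀ r, ‖f z - a‖ := by field_simp
  have h4 : ∫ z in ball z₀ r, ‖f z - av‖ ≤ 2 * ∫ z in ball z₀ r, ‖f z - a‖ := by linarith
  calc m⁻¹ * ∫ z in ball z₀ r, ‖f z - av‖ ≤ m⁻¹ * (2 * ∫ z in ball z₀ r, ‖f z - a‖) := by gcongr
    _ = 2 * (m⁻¹ * ∫ z in ball z₀ r, ‖f z - a‖) := by ring

theorem main : S_Decay := by
  intro hFinal hEst p hp
  obtain ⟨C, M, hC, hM, hE⟩ := hEst p hp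
  obtain ⟨C', hC', hF⟩ := hFinal p hp C M hC hM
  refine ⟨2 * 64 ^ 3 + 16 * Real.pi * C', by positivity, ?_⟩
  intro Ω h G hΩ hPH z₀ R hR hBΩ hint θ hθ0 hθ1
  set f : ℂ → ℂ := fun z => pw (p - 2) (G z) with hfdef
  set av : ℂ := ⨍ w in ball z₀ R, f w with hav
  have hfin : volume (ball z₀ R) ≠ ⊤ := measure_ball_lt_top.ne
  have hconst : ∀ c : ℂ, IntegrableOn (fun _ : ℂ => c) (ball z₀ R) := fun c =>
    integrableOn_const hfin
  have hfav : IntegrableOn (fun z => ‖f z - av‖) (ball z₀ R) := (hint.sub (hconst av)).norm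
  have hθR : 0 < θ * R := by positivity
  have hsub : ball z₀ (θ * R) ⊆ ball z₀ R := ball_subset_ball (by nlinarith)
  have hintθ : IntegrableOn f (ball z₀ (θ * R)) := hint.mono_set hsub
  set I0 : ℝ := ∫ z in ball z₀ R, ‖f z - av‖ with hI0
  have hI0n : 0 ≤ I0 := by
    rw [hI0]; exact integral_nonneg (fun z => norm_nonneg _)
  have hAB : ⨍ z in ball z₀ R, ‖f z - av‖ = (Real.pi * R ^ 2)⁻¹ * I0 := by
    rw [avg_eq z₀ R hR, smul_eq_mul]
  rw [hAB]
  have hπ := Real.pi_pos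
  by_cases hθ : 1 / 64 ≤ θ
  · have h1 := avg_osc z₀ (θ * R) hθR f hintθ av
    refine h1.trans ?_
    rw [avg_eq z₀ (θ * R) hθR, smul_eq_mul]
    have h2 : ∫ z in ball z₀ (θ * R), ‖f z - av‖ ≤ I0 := by
      apply setIntegral_mono_set hfav
      · exact Filter.Eventually.of_forall (fun z => norm_nonneg _)
      · exact hsub.eventuallyLE
    have h3 : (Real.pi * (θ * R) ^ 2)⁻¹ = (θ ^ 2)⁻¹ * (Real.pi * R ^ 2)⁻¹ := by
      rw [← mul_inv]; congr 1; ring
    have h4 : (θ ^ 2)⁻¹ ≤ 64 ^ 3 * θ := by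
      rw [inv_le_iff_one_le_mul₀ (by positivity)]
      have : (1 / 64 : ℝ) ^ 3 ≤ θ ^ 3 := pow_le_pow_left₀ (by norm_num) hθ 3
      nlinarith
    calc 2 * ((Real.pi * (θ * R) ^ 2)⁻¹ * ∫ z in ball z₀ (θ * R), ‖f z - av‖)
        ≤ 2 * ((Real.pi * (θ * R) ^ 2)⁻¹ * I0) := by gcongr
      _ = 2 * (θ ^ 2)⁻¹ * ((Real.pi * R ^ 2)⁻¹ * I0) := by rw [h3]; ring
      _ ≤ 2 * (64 ^ 3 * θ) * ((Real.pi * R ^ 2)⁻¹ * I0) := by gcongr
      _ ≤ (2 * 64 ^ 3 + 16 * Real.pi * C') * θ * ((Real.pi * R ^ 2)⁻¹ * I0) := by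
          have : 2 * (64 ^ 3 * θ) ≤ (2 * 64 ^ 3 + 16 * Real.pi * C') * θ := by
            have : 0 ≤ 16 * Real.pi * C' * θ := by positivity
            nlinarith
          gcongr
  · push Not at hθ
    have hR' : 0 < 3 / 4 * R := by positivity
    have hcb : closedBall z₀ (3 / 4 * R) ⊆ Ω :=
      (closedBall_subset_ball (by linarith)).trans hBΩ
    obtain ⟨G', hG', hae⟩ := hE Ω h G hΩ hPH z₀ (3 / 4 * R) hR' hcb
    have hcb2 : closedBall z₀ (R / 2) ⊆ ball z₀ (3 / 4 * R) :=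
      closedBall_subset_ball (by linarith)
    have hpt := hF (ball z₀ (3 / 4 * R)) G' hG' z₀ (R / 2) (by positivity) hcb2 av (2 * θ)
      (by positivity) (by linarith)
    set a' : ℂ := pw (p - 2) (G' z₀) with ha'
    set T : ℝ := 8 * C' * θ / R ^ 2 * I0 with hT
    have hTn : 0 ≤ T := by positivity
    have hI1 : ∫ w in closedBall z₀ (R / 2), ‖pw (p - 2) (G' w) - av‖ ≤ I0 := by
      have e1 : ∫ w in closedBall z₀ (R / 2), ‖pw (p - 2) (G' w) - av‖ =
          ∫ w in closedBall z₀ (R / 2), ‖f w - av‖ := by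
        apply integral_congr_ae
        filter_upwards [ae_restrict_of_ae_restrict_of_subset hcb2 hae] with w hw
        rw [hfdef]; simp only [hw]
      rw [e1]
      apply setIntegral_mono_set hfav
      · exact Filter.Eventually.of_forall (fun z => norm_nonneg _)
      · exact (closedBall_subset_ball (by linarith)).eventuallyLE
    have hpt' : ∀ x ∈ closedBall z₀ (θ * R), ‖pw (p - 2) (G' x) - a'‖ ≤ T := by
      intro x hx
      have h1 := hpt x (by
        have : 2 * θ * (R / 2) = θ * R := by ring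
        rw [this]; exact hx)
      refine h1.trans ?_
      calc C' * (2 * θ) / (R / 2) ^ 2 * ∫ w in closedBall z₀ (R / 2), ‖pw (p - 2) (G' w) - av‖
          ≤ C' * (2 * θ) / (R / 2) ^ 2 * I0 := by gcongr
        _ = T := by rw [hT]; field_simp; ring
    have hsub2 : ball z₀ (θ * R) ⊆ ball z₀ (3 / 4 * R) := ball_subset_ball (by nlinarith)
    have haeT : ∀ᵐ z ∂(volume.restrict (ball z₀ (θ * R))), ‖f z - a'‖ ≤ T := by
      filter_upwards [ae_restrict_of_ae_restrict_of_subset hsub2 hae,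
        ae_restrict_mem measurableSet_ball] with z hz hzb
      have := hpt' z (ball_subset_closedBall hzb)
      rw [hfdef]; simp only [hz]; exact this
    have h1 := avg_osc z₀ (θ * R) hθR f hintθ a'
    refine h1.trans ?_
    rw [avg_eq z₀ (θ * R) hθR, smul_eq_mul]
    have hfinθ : volume (ball z₀ (θ * R)) ≠ ⊤ := measure_ball_lt_top.ne
    have h2 : ∫ z in ball z₀ (θ * R), ‖f z - a'‖ ≤ (Real.pi * (θ * R) ^ 2) * T := by
      have e3 : (Real.pi * (θ * R) ^ 2) * T = ∫ z in ball z₀ (θ * R), T := by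
        rw [setIntegral_const, measureReal_def, vol_real_ball z₀ _ hθR, smul_eq_mul]
      rw [e3]
      apply integral_mono_ae ((hintθ.sub (integrableOn_const hfinθ)).norm)
        (integrableOn_const hfinθ) haeT
    have hm : 0 < Real.pi * (θ * R) ^ 2 := by positivity
    calc 2 * ((Real.pi * (θ * R) ^ 2)⁻¹ * ∫ z in ball z₀ (θ * R), ‖f z - a'‖)
        ≤ 2 * ((Real.pi * (θ * R) ^ 2)⁻¹ * ((Real.pi * (θ * R) ^ 2) * T)) := by gcongr
      _ = 2 * T := by rw [inv_mul_cancel_left₀ hm.ne']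
      _ = 16 * Real.pi * C' * θ * ((Real.pi * R ^ 2)⁻¹ * I0) := by
          rw [hT]; field_simp; ring
      _ ≤ (2 * 64 ^ 3 + 16 * Real.pi * C') * θ * ((Real.pi * R ^ 2)⁻¹ * I0) := by
          have : 16 * Real.pi * C' * θ ≤ (2 * 64 ^ 3 + 16 * Real.pi * C') * θ := by nlinarith
          gcongr

end Pool.Agent.W345.PH.Decay
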