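import Pool.Agent.W796.PH.Defs
set_option autoImplicit false

/-! PH-LIN: affine change of variables in the class `W`. -/

namespace Pool.Agent.W345.PH.Lin

open MeasureTheory Metric Set Filter Topology Complex
open scoped ENNReal ContDiff ComplexConjugate
open Pool.Agent.W796.PH
open Pool.Agent.Helper366.IV (W QR Jac)

/-- the affine homeomorphism -/
noncomputable def TH (L : ℂ ≃L[ℝ] ℂ) (y : ℂ) : ℂ ≃ₜ ℂ := L.toHomeomorph.trans (Homeomorph.addLeft y)

lemma TH_apply (L : ℂ ≃L[ℝ] ℂ) (y w : ℂ) : TH L y w = y + L w := rfl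

lemma exists_map (L : ℂ ≃L[ℝ] ℂ) (y : ℂ) : ∃ c : ℝ≥0∞, c ≠ ⊤ ∧ ∀ K : Set ℂ,
    (volume.restrict K).map (TH L y) = c • volume.restrict (TH L y '' K) := by
  have hd : LinearMap.det (L : ℂ →ₗ[ℝ] ℂ) ≠ 0 := (LinearEquiv.isUnit_det' L.toLinearEquiv).ne_zero
  have h1 := Measure.map_linearMap_addHaar_eq_smul_addHaar (volume : Measure ℂ) hd
  refine ⟨ENNReal.ofReal |(LinearMap.det (L : ℂ →ₗ[ℝ] ℂ))⁻¹|, ENNReal.ofReal_ne_top, fun K => ?_⟩
  have h2 : (volume : Measure ℂ).map (TH L y) =
      ENNReal.ofReal |(LinearMap.det (L : ℂ →ₗ[ℝ] ℂ))⁻¹| • volume := by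
    have h3 : (TH L y : ℂ → ℂ) = (fun w => y + w) ∘ (L : ℂ → ℂ) := rfl
    rw [h3, ← Measure.map_map (measurable_const_add y) L.continuous.measurable]
    have h4 : (volume : Measure ℂ).map (L : ℂ → ℂ) =
        ENNReal.ofReal |(LinearMap.det (L : ℂ →ₗ[ℝ] ℂ))⁻¹| • volume := h1
    rw [h4, Measure.map_smul, MeasureTheory.map_add_left_eq_self]
  have he := (TH L y).measurableEmbedding
  have h5 := he.restrict_map (volume : Measure ℂ) (TH L y '' K)
  rw [(TH L y).injective.preimage_image] at h5
  rw [← h5, h2, Measure.restrict_smul]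

lemma memLp_comp {L : ℂ ≃L[ℝ] ℂ} {y : ℂ} {K : Set ℂ} {g : ℂ → ℂ}
    (h : MemLp g 2 (volume.restrict (TH L y '' K))) :
    MemLp (fun w => g (y + L w)) 2 (volume.restrict K) := by
  obtain ⟨c, hc, hm⟩ := exists_map L y
  have h1 : MemLp g 2 ((volume.restrict K).map (TH L y)) := by
    rw [hm]
    exact h.smul_measure hc
  exact (TH L y).measurableEmbedding.memLp_map_measure_iff.1 h1

theorem main : Pool.Agent.W796.PH.S_Lin := by
  intro U q qx qy hU hW L y
  have hcT : Continuous (TH L y) := (TH L y).continuous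
  have hK' : ∀ K : Set ℂ, K ⊆ (fun w => y + L w) ⁻¹' U → TH L y '' K ⊆ U := by
    rintro K hK _ ⟨w, hw, rfl⟩
    exact hK hw
  have hmem : ∀ v : ℂ, ∀ K : Set ℂ, IsCompact K → K ⊆ (fun w => y + L w) ⁻¹' U →
      MemLp (fun w => (L v).re • qx (y + L w) + (L v).im • qy (y + L w)) 2
        (volume.restrict K) := by
    intro v K hK hKU
    have h1 := memLp_comp (hW.memx _ (hK.image hcT) (hK' K hKU))
    have h2 := memLp_comp (hW.memy _ (hK.image hcT) (hK' K hKU))
    exact (h1.const_smul (L v).re).add (h2.const_smul (L v).im)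
  obtain ⟨c, hc, hm⟩ := exists_map L y
  refine ⟨?_, hmem 1, hmem I, ?_⟩
  · refine hW.cont.comp ?_ (fun w hw => hw)
    fun_prop
  · intro K hK hKU
    obtain ⟨Q, hQ1, hQ2, hQ3, hQ4⟩ := hW.approx _ (hK.image hcT) (hK' K hKU)
    have hx := hW.memx _ (hK.image hcT) (hK' K hKU)
    have hy := hW.memy _ (hK.image hcT) (hK' K hKU)
    have hcomp : ∀ g : ℂ → ℂ, eLpNorm (fun w => g (y + L w)) 2 (volume.restrict K) =
        c ^ ((1 / (2 : ℝ≥0∞)).toReal) * eLpNorm g 2 (volume.restrict (TH L y '' K)) := by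
      intro g
      have h1 := (TH L y).measurableEmbedding.eLpNorm_map_measure (g := g) (p := 2)
        (μ := volume.restrict K)
      rw [hm, eLpNorm_smul_measure_of_ne_top (by norm_num)] at h1
      rw [smul_eq_mul] at h1
      exact h1.symm
    have hlim : ∀ v : ℂ, Tendsto (fun n => eLpNorm (fun z =>
        fderiv ℝ (fun w => Q n (y + L w)) z v -
          ((L v).re • qx (y + L z) + (L v).im • qy (y + L z))) 2 (volume.restrict K))
        atTop (𝓝 0) := by
      intro v
      have hb : ∀ n, eLpNorm (fun z =>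
          fderiv ℝ (fun w => Q n (y + L w)) z v -
          ((L v).re • qx (y + L z) + (L v).im • qy (y + L z))) 2 (volume.restrict K) ≤
          ‖(L v).re‖ₑ * (c ^ ((1 / (2 : ℝ≥0∞)).toReal) * eLpNorm (fun z =>
            fderiv ℝ (Q n) z 1 - qx z) 2 (volume.restrict (TH L y '' K))) +
          ‖(L v).im‖ₑ * (c ^ ((1 / (2 : ℝ≥0∞)).toReal) * eLpNorm (fun z =>
            fderiv ℝ (Q n) z I - qy z) 2 (volume.restrict (TH L y '' K))) := by
        intro n
        have m1 : AEStronglyMeasurable (fun z => fderiv ℝ (Q n) z 1 - qx z)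
            (volume.restrict (TH L y '' K)) :=
          (measurable_fderiv_apply_const ℝ (Q n) 1).aestronglyMeasurable.sub
            hx.aestronglyMeasurable
        have m2 : AEStronglyMeasurable (fun z => fderiv ℝ (Q n) z I - qy z)
            (volume.restrict (TH L y '' K)) :=
          (measurable_fderiv_apply_const ℝ (Q n) I).aestronglyMeasurable.sub
            hy.aestronglyMeasurable
        have m3 : ∀ g : ℂ → ℂ, AEStronglyMeasurable g (volume.restrict (TH L y '' K)) →
            AEStronglyMeasurable (fun w => g (y + L w)) (volume.restrict K) := by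
          intro g hg
          have h1 : AEStronglyMeasurable g ((volume.restrict K).map (TH L y)) := by
            rw [hm]
            exact hg.smul_measure c
          exact (TH L y).measurableEmbedding.aestronglyMeasurable_map_iff.1 h1
        rw [← hcomp, ← hcomp, ← eLpNorm_const_smul, ← eLpNorm_const_smul]
        refine le_trans (le_of_eq ?_) (eLpNorm_add_le ((m3 _ m1).const_smul _)
          ((m3 _ m2).const_smul _) (by norm_num))
        apply eLpNorm_congr_ae
        refine (ae_restrict_iff' hK.measurableSet).2 (Eventually.of_forall fun z hz => ?_)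
        have hd : DifferentiableAt ℝ (Q n) (y + L z) :=
          (hQ1 n _ ⟨z, hz, rfl⟩).differentiableAt (by norm_num)
        have h1 : HasFDerivAt (fun w : ℂ => y + L w) (L : ℂ →L[ℝ] ℂ) z :=
          (L.hasFDerivAt).const_add y
        have h2 := (hd.hasFDerivAt.comp z h1).fderiv
        have h3 : fderiv ℝ (fun w => Q n (y + L w)) z v = fderiv ℝ (Q n) (y + L z) (L v) := by
          have : (fun w => Q n (y + L w)) = Q n ∘ fun w : ℂ => y + L w := rfl
          rw [this, h2]
          rfl
        have h4 : L v = (L v).re • (1 : ℂ) + (L v).im • I := by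
          apply Complex.ext <;> simp
        simp only [Pi.add_apply, Pi.smul_apply]
        rw [h3]
        conv_lhs => rw [h4]
        rw [map_add, map_smul, map_smul, smul_sub, smul_sub]
        have e1 : ((L v).re • (1 : ℂ) + (L v).im • I).re = (L v).re := by simp
        have e2 : ((L v).re • (1 : ℂ) + (L v).im • I).im = (L v).im := by simp
        rw [e1, e2]
        abel
      have hz : Tendsto (fun n => ‖(L v).re‖ₑ * (c ^ ((1 / (2 : ℝ≥0∞)).toReal) * eLpNorm (fun z =>
            fderiv ℝ (Q n) z 1 - qx z) 2 (volume.restrict (TH L y '' K))) +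
          ‖(L v).im‖ₑ * (c ^ ((1 / (2 : ℝ≥0∞)).toReal) * eLpNorm (fun z =>
            fderiv ℝ (Q n) z I - qy z) 2 (volume.restrict (TH L y '' K)))) atTop (𝓝 0) := by
        have hc2 : c ^ ((1 / (2 : ℝ≥0∞)).toReal) ≠ ⊤ :=
          ENNReal.rpow_ne_top_of_nonneg ENNReal.toReal_nonneg hc
        have t1 := ENNReal.Tendsto.const_mul (a := ‖(L v).re‖ₑ)
          (ENNReal.Tendsto.const_mul (a := c ^ ((1 / (2 : ℝ≥0∞)).toReal)) hQ3 (Or.inr hc2))
          (Or.inr enorm_ne_top)
        have t2 := ENNReal.Tendsto.const_mul (a := ‖(L v).im‖ₑ)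
          (ENNReal.Tendsto.const_mul (a := c ^ ((1 / (2 : ℝ≥0∞)).toReal)) hQ4 (Or.inr hc2))
          (Or.inr enorm_ne_top)
        have := t1.add t2
        simpa using this
      exact tendsto_of_tendsto_of_tendsto_of_le_of_le tendsto_const_nhds hz
        (fun n => zero_le) hb
    refine ⟨fun n w => Q n (y + L w), ?_, ?_, hlim 1, hlim I⟩
    · intro n z hz
      have h1 : ContDiffAt ℝ 2 (fun w : ℂ => y + L w) z := by fun_prop
      exact ContDiffAt.comp z (hQ1 n _ ⟨z, hz, rfl⟩) h1
    · have := hQ2.comp (TH L y)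
      rw [(TH L y).injective.preimage_image] at this
      exact this

end Pool.Agent.W345.PH.Lin
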