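import Pool.Agent.W796.PH.Defs
set_option autoImplicit false

/-! PH-PDDER: derivatives of radial power maps. -/

namespace Pool.Agent.W345.PH.PdDer

open MeasureTheory Metric Set Filter Topology Complex
open scoped ENNReal ContDiff ComplexConjugate
open Pool.Agent.W796.PH

lemma inner_eq (v w : ℂ) : (innerSL ℝ v) w = (conj v * w).re := by
  rw [innerSL_apply_apply, Complex.inner, mul_comm]

lemma base (c e : ℝ) (v : ℂ) (h : c + ‖v‖ ^ 2 ≠ 0) (w : ℂ) :
    DifferentiableAt ℝ (fun v : ℂ => (((c + ‖v‖ ^ 2) ^ (e / 2) : ℝ) : ℂ) * v) v ∧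
    fderiv ℝ (fun v : ℂ => (((c + ‖v‖ ^ 2) ^ (e / 2) : ℝ) : ℂ) * v) v w =
      (((c + ‖v‖ ^ 2) ^ (e / 2) : ℝ) : ℂ) *
        (w + ((e / (c + ‖v‖ ^ 2) * (conj v * w).re : ℝ) : ℂ) * v) := by
  have h1 : HasFDerivAt (fun v : ℂ => c + ‖v‖ ^ 2) ((2 : ℝ) • innerSL ℝ v) v := by
    have := (hasStrictFDerivAt_norm_sq v).hasFDerivAt.const_add c
    refine this.congr_fderiv ?_
    rw [two_smul, two_smul]
  have h2 := h1.rpow_const (p := e / 2) (Or.inl h)
  have h3 := (Complex.ofRealCLM.hasFDerivAt (x := (c + ‖v‖ ^ 2) ^ (e / 2))).comp v h2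
  have h4 := h3.mul (hasFDerivAt_id v)
  refine ⟨h4.differentiableAt, ?_⟩
  have h5 := h4.fderiv
  have h6 : fderiv ℝ (fun v : ℂ => (((c + ‖v‖ ^ 2) ^ (e / 2) : ℝ) : ℂ) * v) v = _ := h5
  rw [h6]
  simp only [_root_.add_apply, _root_.smul_apply, Function.comp_apply,
    ContinuousLinearMap.comp_apply, ContinuousLinearMap.id_apply, id, smul_eq_mul,
    Complex.ofRealCLM_apply, inner_eq]
  rw [Real.rpow_sub_one h]
  have h7 : ((c + ‖v‖ ^ 2 : ℝ) : ℂ) ≠ 0 := by exact_mod_cast h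
  push_cast at h7 ⊢
  field_simp

lemma frame (v w : ℂ) (k : ℝ) : ((k * ‖v‖ ^ 2 * (conj (v / ‖v‖) * w).re : ℝ) : ℂ) * (v / ‖v‖)
    = ((k * (conj v * w).re : ℝ) : ℂ) * v := by
  rcases eq_or_ne v 0 with h | h
  · rw [h]; simp
  · have hv : (‖v‖ : ℂ) ≠ 0 := by exact_mod_cast norm_ne_zero_iff.2 h
    have hv' : ‖v‖ ≠ 0 := norm_ne_zero_iff.2 h
    have h1 : (conj (v / ‖v‖) * w).re = (conj v * w).re / ‖v‖ := by
      rw [map_div₀, Complex.conj_ofReal, div_mul_eq_mul_div, Complex.div_ofReal_re]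
    rw [h1]
    push_cast
    field_simp

theorem main : Pool.Agent.W796.PH.S_PdDer := by
  constructor
  · intro e δ hδ
    have hpos : ∀ v : ℂ, δ ^ 2 + ‖v‖ ^ 2 ≠ 0 := fun v => by positivity
    constructor
    · unfold pd
      have h1 : ContDiff ℝ ∞ fun v : ℂ => δ ^ 2 + ‖v‖ ^ 2 := by
        have := contDiff_norm_sq (𝕜 := ℝ) (E := ℂ) (n := ∞)
        exact contDiff_const.add this
      have h2 : ContDiff ℝ ∞ fun v : ℂ => (δ ^ 2 + ‖v‖ ^ 2) ^ (e / 2) :=
        h1.rpow_const_of_ne hpos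
      exact (Complex.ofRealCLM.contDiff.comp h2).mul contDiff_id
    · intro v w
      have := (base (δ ^ 2) e v (hpos v) w).2
      show fderiv ℝ (fun v : ℂ => (((δ ^ 2 + ‖v‖ ^ 2) ^ (e / 2) : ℝ) : ℂ) * v) v w = _
      rw [this]
      unfold fr
      congr 2
      have h := frame v w (e / (δ ^ 2 + ‖v‖ ^ 2))
      rw [← h]
      congr 2
      ring
  · intro e v hv
    have hv0 : 0 < ‖v‖ := norm_pos_iff.2 hv
    have hn : ∀ v : ℂ, ‖v‖ ^ e = (0 + ‖v‖ ^ 2) ^ (e / 2) := by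
      intro v
      rw [zero_add, ← Real.rpow_natCast, ← Real.rpow_mul (norm_nonneg _)]
      congr 1
      push_cast
      ring
    constructor
    · have h2 : ContDiffAt ℝ ∞ (fun v : ℂ => ‖v‖ ^ e) v :=
        (contDiffAt_norm ℝ hv).rpow_const_of_ne hv0.ne'
      exact ((Complex.ofRealCLM.contDiff.contDiffAt).comp v h2).mul contDiffAt_id
    · intro w
      have hpw : pw e = fun v : ℂ => (((0 + ‖v‖ ^ 2) ^ (e / 2) : ℝ) : ℂ) * v := by
        funext v
        unfold pw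
        rw [hn]
      rw [hpw, (base 0 e v (by positivity) w).2, ← hn]
      unfold fr
      congr 2
      have h := frame v w (e / ‖v‖ ^ 2)
      rw [zero_add, ← h]
      congr 2
      field_simp
      ring

end Pool.Agent.W345.PH.PdDer
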