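import Pool.Agent.W796.PH.Defs
set_option autoImplicit false

/-! PH-RIESZ: Lipschitz translations in `L²` give a weak derivative. -/

namespace Pool.Agent.W345.PH.Riesz

open MeasureTheory Metric Set Filter Topology Complex
open scoped ENNReal ContDiff ComplexConjugate
open Pool.Agent.W796.PH

/-- weak sequential compactness along an ultrafilter -/
lemma weak_lim {H : Type*} [NormedAddCommGroup H] [InnerProductSpace ℂ H] [CompleteSpace H]
    (F : Ultrafilter ℕ) (w : ℕ → H) (M : ℝ) (hw : ∀ᶠ n in (F : Filter ℕ), ‖w n‖ ≤ M) :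
    ∃ v : H, ∀ u : H, Tendsto (fun n => inner ℂ (w n) u) F (𝓝 (inner ℂ v u)) := by
  have hc := WeakDual.isCompact_closedBall (𝕜 := ℂ) (E := H) 0 M
  obtain ⟨x, -, hx⟩ := hc.ultrafilter_le_nhds
    (F.map fun n => (WeakDual.toStrongDual.symm (InnerProductSpace.toDual ℂ H (w n)) :
      WeakDual ℂ H)) (by
    rw [le_principal_iff]
    refine Filter.mem_map.2 ?_
    filter_upwards [hw] with n hn
    simpa using hn)
  have hx' : Tendsto (fun n => (WeakDual.toStrongDual.symm (InnerProductSpace.toDual ℂ H (w n)) :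
      WeakDual ℂ H)) F (𝓝 x) := hx
  refine ⟨(InnerProductSpace.toDual ℂ H).symm (WeakDual.toStrongDual x), fun u => ?_⟩
  have h1 := ((WeakDual.eval_continuous (𝕜 := ℂ) u).tendsto x).comp hx'
  have h2 : inner ℂ ((InnerProductSpace.toDual ℂ H).symm (WeakDual.toStrongDual x)) u = x u := by
    rw [InnerProductSpace.toDual_symm_apply]
    rfl
  rw [h2]
  exact h1

lemma norm_toLp_sq {μ : Measure ℂ} {f : ℂ → ℂ} (hf : MemLp f 2 μ) :
    ‖hf.toLp f‖ ^ 2 = ∫ z, ‖f z‖ ^ 2 ∂μ := by
  have h1 : inner ℂ (hf.toLp f) (hf.toLp f) = ((∫ z, ‖f z‖ ^ 2 ∂μ : ℝ) : ℂ) := by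
    rw [L2.inner_def]
    refine Eq.trans ?_ (integral_ofReal (𝕜 := ℂ) (μ := μ) (f := fun z => ‖f z‖ ^ 2))
    apply integral_congr_ae
    filter_upwards [hf.coeFn_toLp] with z hz
    rw [hz, inner_self_eq_norm_sq_to_K]
    norm_num
  rw [← inner_self_eq_norm_sq (𝕜 := ℂ), h1]
  simp

theorem main : Pool.Agent.W796.PH.S_Riesz := by
  intro V c e r C t₀ hr ht₀ he hV hC
  set B := ball c r with hB
  set B' := ball c (r + t₀) with hB'
  set V' : ℂ → ℂ := B'.indicator V with hV'
  have hV'2 : MemLp V' 2 volume := (memLp_indicator_iff_restrict measurableSet_ball).2 hV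
  have hBB' : B ⊆ B' := ball_subset_ball (by linarith)
  have hVV : ∀ z ∈ B', V' z = V z := fun z hz => indicator_of_mem hz V
  have hshift : ∀ t : ℝ, 0 < t → t < t₀ → ∀ z ∈ B, z + t * e ∈ B' := by
    intro t ht ht' z hz
    rw [hB, mem_ball, dist_eq_norm] at hz
    rw [hB', mem_ball, dist_eq_norm]
    have : z + t * e - c = (z - c) + t * e := by ring
    rw [this]
    calc ‖(z - c) + t * e‖ ≤ ‖z - c‖ + ‖(t : ℂ) * e‖ := norm_add_le _ _
      _ < r + t₀ := by
        rw [norm_mul, he, mul_one, Complex.norm_real, Real.norm_of_nonneg ht.le]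
        linarith
  -- difference quotients
  set w : ℝ → ℂ → ℂ := fun t z => ((t⁻¹ : ℝ) : ℂ) * (V' (z + t * e) - V' z) with hw
  have hwm : ∀ t, MemLp (w t) 2 (volume.restrict B) := by
    intro t
    have h1 : MemLp (fun z => V' (z + t * e)) 2 volume :=
      hV'2.comp_measurePreserving (measurePreserving_add_right volume ((t : ℂ) * e))
    exact ((h1.sub hV'2).const_mul _).restrict B
  have hwn : ∀ t, 0 < t → t < t₀ → ‖(hwm t).toLp (w t)‖ ≤ Real.sqrt (max C 0) := by
    intro t ht ht'
    apply Real.le_sqrt_of_sq_le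
    rw [norm_toLp_sq]
    have h1 : ∫ z in B, ‖w t z‖ ^ 2 = (t⁻¹) ^ 2 * ∫ z in B, ‖V (z + t * e) - V z‖ ^ 2 := by
      rw [← integral_const_mul]
      apply setIntegral_congr_fun measurableSet_ball
      intro z hz
      simp only [hw]
      rw [hVV _ (hshift t ht ht' z hz), hVV _ (hBB' hz), norm_mul, mul_pow, Complex.norm_real,
        Real.norm_eq_abs, sq_abs]
    rw [h1]
    calc (t⁻¹) ^ 2 * ∫ z in B, ‖V (z + t * e) - V z‖ ^ 2 ≤ (t⁻¹) ^ 2 * (C * t ^ 2) :=
          mul_le_mul_of_nonneg_left (hC t ht ht') (by positivity)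
      _ = C := by field_simp
      _ ≤ max C 0 := le_max_left _ _
  -- the sequence
  set s : ℕ → ℝ := fun n => t₀ / (n + 2) with hs
  have hs0 : ∀ n, 0 < s n := fun n => by simp only [hs]; positivity
  have hs1 : ∀ n, s n < t₀ := fun n => by
    simp only [hs]
    rw [div_lt_iff₀ (by positivity)]
    nlinarith [Nat.cast_nonneg (α := ℝ) n]
  have hslim : Tendsto s atTop (𝓝 0) := by
    simp only [hs]
    have h1 : Tendsto (fun n : ℕ => (n : ℝ) + 2) atTop atTop :=
      tendsto_atTop_add_const_right _ _ tendsto_natCast_atTop_atTop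
    exact h1.const_div_atTop t₀
  set F : Ultrafilter ℕ := Filter.hyperfilter ℕ with hF
  have hFat : (F : Filter ℕ) ≤ atTop := by
    rw [← Nat.cofinite_eq_atTop]
    exact Filter.hyperfilter_le_cofinite
  obtain ⟨Ve, hVe⟩ := weak_lim F (fun n => (hwm (s n)).toLp (w (s n))) _
    (Eventually.of_forall fun n => hwn (s n) (hs0 n) (hs1 n))
  refine ⟨Ve, Lp.memLp Ve, ?_⟩
  intro φ hφ hφc hφs
  have hφcont : Continuous φ := hφ.continuous
  have hφ0 : ∀ z, z ∉ B → φ z = 0 := by
    intro z hz
    by_contra hcon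
    exact hz (hφs (subset_tsupport _ hcon))
  have hdφ0 : ∀ z, z ∉ B → fderiv ℝ φ z = 0 := by
    intro z hz
    by_contra hcon
    exact hz (hφs (support_fderiv_subset ℝ hcon))
  -- the test function as an element of L^2
  have hφm : MemLp (fun z => ((φ z : ℝ) : ℂ)) 2 (volume.restrict B) := by
    have h1 : Continuous fun z => ((φ z : ℝ) : ℂ) := Complex.continuous_ofReal.comp hφcont
    have h2 : HasCompactSupport fun z => ((φ z : ℝ) : ℂ) :=
      hφc.comp_left (g := fun x : ℝ => (x : ℂ)) (by simp)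
    exact (h1.memLp_of_hasCompactSupport h2).restrict B
  have hinner : ∀ (f : ℂ → ℂ) (hf : MemLp f 2 (volume.restrict B)),
      inner ℂ (hf.toLp f) (hφm.toLp _) = conj (∫ z in B, φ z • f z) := by
    intro f hf
    rw [L2.inner_def, ← integral_conj]
    apply integral_congr_ae
    filter_upwards [hf.coeFn_toLp, hφm.coeFn_toLp] with z h1 h2
    rw [h1, h2, Complex.real_smul, map_mul, Complex.conj_ofReal]
    rfl
  have hinnerV : inner ℂ Ve (hφm.toLp _) = conj (∫ z in B, φ z • (Ve : ℂ → ℂ) z) := by
    rw [L2.inner_def, ← integral_conj]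
    apply integral_congr_ae
    filter_upwards [hφm.coeFn_toLp] with z h2
    rw [h2, Complex.real_smul, map_mul, Complex.conj_ofReal]
    rfl
  have hlim1 : Tendsto (fun n => ∫ z in B, φ z • w (s n) z) F
      (𝓝 (∫ z in B, φ z • (Ve : ℂ → ℂ) z)) := by
    have h1 := hVe (hφm.toLp _)
    rw [hinnerV] at h1
    have h2 := (Complex.continuous_conj.tendsto _).comp h1
    simp only [Complex.conj_conj] at h2
    refine h2.congr fun n => ?_
    simp only [Function.comp_apply]
    rw [hinner _ (hwm (s n)), Complex.conj_conj]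
  -- the other computation of the limit
  have hV'int : Integrable V' volume := by
    rw [hV', integrable_indicator_iff measurableSet_ball]
    have : IsFiniteMeasure (volume.restrict B') := ⟨by
      rw [Measure.restrict_apply_univ]; exact measure_ball_lt_top⟩
    exact hV.integrable (by norm_num)
  obtain ⟨K, hK⟩ := (hφ.continuous_fderiv (by simp)).norm.bounded_above_of_compact_support
    (hφc.fderiv ℝ).norm
  have hK' : ∀ z, ‖fderiv ℝ φ z‖ ≤ K := fun z => by simpa using hK z
  have hLip : ∀ z z' : ℂ, |φ z' - φ z| ≤ K * ‖z' - z‖ := by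
    intro z z'
    have := convex_univ.norm_image_sub_le_of_norm_fderiv_le (𝕜 := ℝ) (f := φ) (C := K)
      (fun x _ => (hφ.differentiable (by norm_num)).differentiableAt) (fun x _ => hK' x)
      (mem_univ z) (mem_univ z')
    simpa using this
  have hcomp : ∀ t : ℝ, 0 < t → ∫ z in B, φ z • w t z =
      ∫ z, (((t⁻¹ * (φ (z - t * e) - φ z) : ℝ)) : ℂ) * V' z := by
    intro t ht
    have h0 : ∫ z in B, φ z • w t z = ∫ z, φ z • w t z := by
      apply setIntegral_eq_integral_of_forall_compl_eq_zero
      intro z hz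
      rw [hφ0 z hz, zero_smul]
    have hφV : ∀ a : ℂ, Integrable (fun z => ((φ (z - a) : ℝ) : ℂ) * V' z) := by
      intro a
      obtain ⟨D, hD⟩ := hφcont.bounded_above_of_compact_support hφc
      refine hV'int.bdd_mul (c := D) ?_ (Eventually.of_forall fun z => ?_)
      · apply Continuous.aestronglyMeasurable
        fun_prop
      · rw [Complex.norm_real]; exact hD _
    have h1 : ∫ z, ((φ z : ℝ) : ℂ) * V' (z + t * e) = ∫ z, ((φ (z - t * e) : ℝ) : ℂ) * V' z := by
      rw [← integral_add_right_eq_self (μ := (volume : Measure ℂ))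
        (fun z => ((φ (z - t * e) : ℝ) : ℂ) * V' z) (t * e)]
      simp only [add_sub_cancel_right]
    have hi1 : Integrable (fun z => ((φ z : ℝ) : ℂ) * V' (z + t * e)) := by
      have := (hφV (t * e)).comp_add_right (t * e)
      simpa only [add_sub_cancel_right] using this
    have hi2 : Integrable (fun z => ((φ z : ℝ) : ℂ) * V' z) := by simpa using hφV 0
    rw [h0]
    calc ∫ z, φ z • w t z = ∫ z, ((t⁻¹ : ℝ) : ℂ) *
          (((φ z : ℝ) : ℂ) * V' (z + t * e) - ((φ z : ℝ) : ℂ) * V' z) := by
          congr 1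
          funext z
          simp only [hw, Complex.real_smul]
          ring
      _ = ((t⁻¹ : ℝ) : ℂ) * ((∫ z, ((φ (z - t * e) : ℝ) : ℂ) * V' z) -
          (∫ z, ((φ z : ℝ) : ℂ) * V' z)) := by
          rw [integral_const_mul, integral_sub hi1 hi2, h1]
      _ = ∫ z, ((t⁻¹ : ℝ) : ℂ) * (((φ (z - t * e) : ℝ) : ℂ) * V' z - ((φ z : ℝ) : ℂ) * V' z) := by
          rw [integral_const_mul, integral_sub (hφV _) hi2]
      _ = _ := by
          congr 1
          funext z
          push_cast
          ring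
  have hlim2 : Tendsto (fun n => ∫ z in B, φ z • w (s n) z) F
      (𝓝 (∫ z, ((-(fderiv ℝ φ z e) : ℝ) : ℂ) * V' z)) := by
    have h1 : Tendsto (fun n => ∫ z, (((s n)⁻¹ * (φ (z - s n * e) - φ z) : ℝ) : ℂ) * V' z)
        atTop (𝓝 (∫ z, ((-(fderiv ℝ φ z e) : ℝ) : ℂ) * V' z)) := by
      apply tendsto_integral_of_dominated_convergence (fun z => K * ‖V' z‖)
      · intro n
        refine AEStronglyMeasurable.mul ?_ hV'int.aestronglyMeasurable
        apply Continuous.aestronglyMeasurable
        fun_prop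
      · exact hV'int.norm.const_mul K
      · intro n
        refine Eventually.of_forall fun z => ?_
        rw [norm_mul]
        apply mul_le_mul_of_nonneg_right _ (norm_nonneg _)
        rw [Complex.norm_real, norm_mul, norm_inv, Real.norm_of_nonneg (hs0 n).le,
          inv_mul_le_iff₀ (hs0 n)]
        refine (hLip z (z - s n * e)).trans (le_of_eq ?_)
        have : z - s n * e - z = -(s n * e) := by ring
        rw [this, norm_neg, norm_mul, he, mul_one, Complex.norm_real,
          Real.norm_of_nonneg (hs0 n).le]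
        ring
      · refine Eventually.of_forall fun z => ?_
        apply Tendsto.mul_const
        apply (Complex.continuous_ofReal.tendsto _).comp
        -- derivative along the line
        have hd : HasDerivAt (fun x : ℝ => φ (z - x * e)) (-(fderiv ℝ φ z e)) 0 := by
          have h3 : HasDerivAt (fun x : ℝ => z - x * e) (-e) 0 := by
            have := ((Complex.ofRealCLM.hasDerivAt (x := (0:ℝ))).mul_const e).const_sub z
            simpa using this
          have h4 : HasFDerivAt φ (fderiv ℝ φ z) (z - (0 : ℝ) * e) := by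
            simp only [Complex.ofReal_zero, zero_mul, sub_zero]
            exact (hφ.differentiable (by norm_num)).differentiableAt.hasFDerivAt
          have h5 := h4.comp_hasDerivAt (0:ℝ) h3
          exact HasDerivAt.congr_deriv (f := fun x : ℝ => φ (z - x * e)) h5 (by rw [map_neg])
        rw [hasDerivAt_iff_tendsto_slope_zero] at hd
        have h6 : Tendsto s atTop (𝓝[≠] 0) :=
          tendsto_nhdsWithin_iff.2 ⟨hslim, Eventually.of_forall fun n => (hs0 n).ne'⟩
        have h7 := hd.comp h6
        refine h7.congr fun n => ?_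
        simp
    refine (h1.mono_left hFat).congr fun n => ?_
    rw [hcomp _ (hs0 n)]
  have hfin := tendsto_nhds_unique hlim1 hlim2
  have e1 : ∫ z, φ z • (Ve : ℂ → ℂ) z = ∫ z in B, φ z • (Ve : ℂ → ℂ) z := by
    symm
    apply setIntegral_eq_integral_of_forall_compl_eq_zero
    intro z hz
    rw [hφ0 z hz, zero_smul]
  rw [e1, hfin, ← integral_neg]
  congr 1
  funext z
  by_cases hz : z ∈ B
  · rw [hVV z (hBB' hz), Complex.real_smul]
    push_cast
    ring
  · rw [hdφ0 z hz]
    simp

end Pool.Agent.W345.PH.Riesz
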