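import Pool.Agent.W796.PH.Defs
import Pool.Agent.Helper366.IV.Moll
set_option autoImplicit false

/-! PH-WEAKSW: weak derivatives in `L²` give the strong space (mollification). -/

namespace Pool.Agent.W345.PH.WeakSW

open MeasureTheory Metric Set Filter Topology Complex
open scoped ENNReal ContDiff ComplexConjugate
open Pool.Agent.W796.PH
open Pool.Agent.Helper366.IV (transl_cont mollify_L2)
open ContinuousLinearMap Convolution

theorem deriv_formula (U : Set ℂ) (q qe : ℂ → ℂ) (e : ℂ) (K' : Set ℂ)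
    (hK'U : K' ⊆ U) (hFi : Integrable (K'.indicator q)) (hw : WD U q qe e)
    (g : ℂ → ℂ) (hg : ∀ᵐ z, z ∈ U → g z = qe z)
    (ρ : ℂ → ℝ) (hρs : ContDiff ℝ ∞ ρ) (hρc : HasCompactSupport ρ) (ε : ℝ)
    (hρsupp : ∀ x, ρ x ≠ 0 → ‖x‖ < ε) (z : ℂ) (hz : closedBall z ε ⊆ K') :
    fderiv ℝ (ρ ⋆[lsmul ℝ ℝ, volume] (K'.indicator q)) z e = ∫ t, ρ t • g (z - t) := by
  have hρs1 : ContDiff ℝ 1 ρ := hρs.of_le (by norm_cast)
  set F : ℂ → ℂ := K'.indicator q with hF
  have hFl : LocallyIntegrable F := hFi.locallyIntegrable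
  have h1 := hρc.hasFDerivAt_convolution_left (lsmul ℝ ℝ) hρs1 hFl z
  have h2 : fderiv ℝ (ρ ⋆[lsmul ℝ ℝ, volume] F) z =
      (fderiv ℝ ρ ⋆[(lsmul ℝ ℝ).precompL ℂ, volume] F) z := h1.fderiv
  rw [h2]
  have hex : ConvolutionExistsAt (fderiv ℝ ρ) F z
      ((lsmul ℝ ℝ : ℝ →L[ℝ] ℂ →L[ℝ] ℂ).precompL ℂ) volume :=
    (hρc.fderiv ℝ).convolutionExists_left _ (hρs1.continuous_fderiv one_ne_zero) hFl z
  have h3 : (fderiv ℝ ρ ⋆[(lsmul ℝ ℝ).precompL ℂ, volume] F) z e =
      ∫ t, fderiv ℝ ρ t e • F (z - t) := by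
    rw [convolution_def, ContinuousLinearMap.integral_apply hex]
    rfl
  rw [h3, ← integral_sub_left_eq_self (fun t => fderiv ℝ ρ t e • F (z - t)) volume z,
    ← integral_sub_left_eq_self (fun t => ρ t • g (z - t)) volume z]
  simp only [sub_sub_cancel]
  set ψ : ℂ → ℝ := fun w => ρ (z - w) with hψ
  have hψs : ContDiff ℝ ∞ ψ := hρs.comp (contDiff_const.sub contDiff_id)
  have hψts : tsupport ψ ⊆ closedBall z ε := by
    refine closure_minimal ?_ isClosed_closedBall
    intro w hw
    have := hρsupp (z - w) hw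
    rw [mem_closedBall, dist_comm, dist_eq_norm]
    exact this.le
  have hψc : HasCompactSupport ψ := (isCompact_closedBall z ε).of_isClosed_subset
    (isClosed_tsupport _) hψts
  have h4 := hw ψ hψs hψc ((hψts.trans hz).trans hK'U)
  have h5 : ∀ w, fderiv ℝ ψ w e = - (fderiv ℝ ρ (z - w) e) := by
    intro w
    have ha : HasFDerivAt (fun w : ℂ => z - w) (-(ContinuousLinearMap.id ℝ ℂ)) w :=
      (hasFDerivAt_id w).const_sub z
    have hb : HasFDerivAt ψ ((fderiv ℝ ρ (z - w)).comp
        (-(ContinuousLinearMap.id ℝ ℂ))) w :=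
      ((hρs1.differentiable one_ne_zero (z - w)).hasFDerivAt).comp w ha
    rw [hb.fderiv]
    simp
  have h6 : ∫ w, fderiv ℝ ρ (z - w) e • F w = - ∫ x, fderiv ℝ ψ x e • q x := by
    rw [← integral_neg]
    refine integral_congr_ae (Filter.Eventually.of_forall fun w => ?_)
    simp only
    rw [h5 w]
    by_cases hw : w ∈ K'
    · rw [hF, indicator_of_mem hw, neg_smul, neg_neg]
    · have hz0 : fderiv ℝ ρ (z - w) = 0 := by
        by_contra hne
        have h7 : z - w ∈ tsupport ρ := support_fderiv_subset ℝ (Function.mem_support.2 hne)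
        have h8 : tsupport ρ ⊆ closedBall 0 ε := by
          refine closure_minimal ?_ isClosed_closedBall
          intro x hx
          rw [mem_closedBall, dist_zero_right]
          exact (hρsupp x hx).le
        have h9 := h8 h7
        rw [mem_closedBall, dist_zero_right] at h9
        apply hw
        apply hz
        rw [mem_closedBall, dist_comm, dist_eq_norm]
        exact h9
      rw [hz0]; simp
  rw [h6, h4, neg_neg]
  apply integral_congr_ae
  filter_upwards [hg] with w hgw
  by_cases hwU : w ∈ U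
  · rw [hgw hwU, hψ]
  · have h0 : ρ (z - w) = 0 := by
      by_contra hne
      apply hwU
      apply hK'U
      apply hz
      rw [mem_closedBall, dist_comm, dist_eq_norm]
      exact (hρsupp _ hne).le
    simp only [hψ, h0, zero_smul]

theorem main : Pool.Agent.W796.PH.S_WeakSW := by
  intro U q qx qy hU hq hx hy hwx hwy
  refine ⟨fun K _ hKU => hq.mono_measure (Measure.restrict_mono hKU le_rfl),
    fun K _ hKU => hx.mono_measure (Measure.restrict_mono hKU le_rfl),
    fun K _ hKU => hy.mono_measure (Measure.restrict_mono hKU le_rfl), ?_⟩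
  intro K hK hKU
  obtain ⟨δ, hδ, hδU⟩ := hK.exists_cthickening_subset_open hU hKU
  set K' : Set ℂ := cthickening δ K with hK'def
  have hK' : IsCompact K' := hK.cthickening
  have hqK' : MemLp q 2 (volume.restrict K') := hq.mono_measure (Measure.restrict_mono hδU le_rfl)
  -- the mollifiers
  have hεpos : ∀ n : ℕ, 0 < δ / ((n : ℝ) + 2) := fun n => by positivity
  let b : ℕ → ContDiffBump (0 : ℂ) := fun n =>
    ⟨δ / ((n : ℝ) + 2) / 2, δ / ((n : ℝ) + 2), by positivity, by
      have := hεpos n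
      linarith⟩
  set ρ : ℕ → ℂ → ℝ := fun n => (b n).normed volume with hρ
  have hρs : ∀ n, ContDiff ℝ ∞ (ρ n) := fun n => (b n).contDiff_normed
  have hρc : ∀ n, HasCompactSupport (ρ n) := fun n => (b n).hasCompactSupport_normed
  have hρ0 : ∀ n x, 0 ≤ ρ n x := fun n => (b n).nonneg_normed
  have hρi : ∀ n, ∫ x, ρ n x = 1 := fun n => (b n).integral_normed
  have hρsupp : ∀ n x, ρ n x ≠ 0 → ‖x‖ < δ / ((n : ℝ) + 2) := by
    intro n x hx
    have : x ∈ Function.support (ρ n) := hx
    rw [hρ] at this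
    simp only at this
    rw [(b n).support_normed_eq] at this
    simpa [b] using this
  have hεδ : ∀ n : ℕ, δ / ((n : ℝ) + 2) ≤ δ := by
    intro n
    rw [div_le_iff₀ (by positivity)]
    have : (0 : ℝ) ≤ n := by positivity
    nlinarith
  have hball : ∀ (n : ℕ), ∀ z ∈ K, closedBall z (δ / ((n : ℝ) + 2)) ⊆ K' := fun n z hz =>
    (closedBall_subset_closedBall (hεδ n)).trans (closedBall_subset_cthickening hz δ)
  have hεlim : Tendsto (fun n : ℕ => δ / ((n : ℝ) + 2)) atTop (𝓝 0) := by
    apply Tendsto.div_atTop tendsto_const_nhds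
    exact tendsto_atTop_add_const_right _ _ tendsto_natCast_atTop_atTop
  have hFi2 : MemLp (K'.indicator q) 2 volume :=
    (memLp_indicator_iff_restrict hK'.measurableSet).2 hqK'
  have hFi : Integrable (K'.indicator q) := by
    rw [integrable_indicator_iff hK'.measurableSet]
    have : IsFiniteMeasure (volume.restrict K') := ⟨by
      rw [Measure.restrict_apply_univ]; exact hK'.measure_lt_top⟩
    exact hqK'.integrable (by norm_num)
  have hKmem : ∀ z ∈ K, z ∈ K' := fun z hz => hball 0 z hz (mem_closedBall_self (hεpos 0).le)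
  -- convergence for a mollified function
  have hmoll : ∀ (f g : ℂ → ℂ), MemLp f 2 volume → Measurable g → f =ᵐ[volume] g →
      Tendsto (fun n => eLpNorm (fun z => (∫ t, ρ n t • g (z - t)) - g z) 2 (volume.restrict K))
        atTop (𝓝 0) := by
    intro f g hf hgm hfg
    have hgL : MemLp g 2 volume := hf.ae_eq hfg
    rw [ENNReal.tendsto_nhds_zero]
    intro η hη
    obtain ⟨ε, hε, hε'⟩ := transl_cont g hgL η hη
    have hev : ∀ᶠ n : ℕ in atTop, δ / ((n : ℝ) + 2) < ε := hεlim.eventually (gt_mem_nhds hε)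
    filter_upwards [hev] with n hn
    have h1 := mollify_L2 g hgm hgL (ρ n) (hρs n).continuous (hρc n) (hρ0 n) (hρi n)
      (δ / ((n : ℝ) + 2)) (hρsupp n) η (fun t ht => hε' t (ht.trans hn))
    exact (eLpNorm_mono_measure _ Measure.restrict_le_self).trans h1
  -- the general derivative statement
  have hder : ∀ (e : ℂ) (qe : ℂ → ℂ), MemLp qe 2 (volume.restrict U) → WD U q qe e →
      Tendsto (fun n => eLpNorm (fun z => fderiv ℝ (ρ n ⋆[lsmul ℝ ℝ, volume] (K'.indicator q)) z e
        - qe z) 2 (volume.restrict K)) atTop (𝓝 0) := by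
    intro e qe hqe hwe
    have hUi : MemLp (U.indicator qe) 2 volume :=
      (memLp_indicator_iff_restrict hU.measurableSet).2 hqe
    set g : ℂ → ℂ := hUi.aestronglyMeasurable.mk _ with hg
    have hgae : (U.indicator qe) =ᵐ[volume] g := hUi.aestronglyMeasurable.ae_eq_mk
    have hgm : Measurable g := hUi.aestronglyMeasurable.stronglyMeasurable_mk.measurable
    have hgU : ∀ᵐ z, z ∈ U → g z = qe z := by
      filter_upwards [hgae] with z hz hzU
      rw [← hz, indicator_of_mem hzU]
    refine (hmoll _ g hUi hgm hgae).congr fun n => ?_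
    apply eLpNorm_congr_ae
    filter_upwards [ae_restrict_mem hK.measurableSet, ae_restrict_of_ae hgU] with z hz hgz
    rw [deriv_formula U q qe e K' hδU hFi hwe g hgU (ρ n) (hρs n) (hρc n)
      (δ / ((n : ℝ) + 2)) (hρsupp n) z (hball n z hz), hgz (hKU hz)]
  refine ⟨fun n => ρ n ⋆[lsmul ℝ ℝ, volume] (K'.indicator q), ?_, ?_, ?_, ?_⟩
  · intro n
    exact (hρc n).contDiff_convolution_left (lsmul ℝ ℝ) (hρs n) hFi.locallyIntegrable
  · set g : ℂ → ℂ := hFi2.aestronglyMeasurable.mk _ with hg
    have hgae : (K'.indicator q) =ᵐ[volume] g := hFi2.aestronglyMeasurable.ae_eq_mk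
    have hgm : Measurable g := hFi2.aestronglyMeasurable.stronglyMeasurable_mk.measurable
    refine (hmoll _ g hFi2 hgm hgae).congr fun n => ?_
    apply eLpNorm_congr_ae
    filter_upwards [ae_restrict_mem hK.measurableSet, ae_restrict_of_ae hgae] with z hz hgz
    have h1 : (ρ n ⋆[lsmul ℝ ℝ, volume] (K'.indicator q)) z = ∫ t, ρ n t • g (z - t) := by
      rw [convolution_def]
      apply integral_congr_ae
      have h2 : (fun t => (K'.indicator q) (z - t)) =ᵐ[volume] fun t => g (z - t) :=
        (Measure.measurePreserving_sub_left volume z).quasiMeasurePreserving.ae_eq_comp hgae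
      filter_upwards [h2] with t ht
      rw [lsmul_apply, ht]
    rw [h1, ← hgz, indicator_of_mem (hKmem z hz)]
  · exact hder 1 qx hx hwx
  · exact hder I qy hy hwy

end Pool.Agent.W345.PH.WeakSW
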