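import Mathlib
import Pool.Agent.W796.PH.Defs
import Pool.Agent.Helper366.IV.Cacc

set_option autoImplicit false

namespace Pool.Agent.W345.PH.Cacc

open MeasureTheory Metric Set Filter Topology Complex
open scoped ContDiff ComplexConjugate
open Pool.Agent.Helper366.IV
open Pool.Agent.W796.PH (S_Cacc)

theorem W_sub_const {U : Set ℂ} {q qx qy : ℂ → ℂ} (h : W U q qx qy) (a : ℂ) :
    W U (fun z => q z - a) qx qy := by
  refine ⟨h.cont.sub continuousOn_const, h.memx, h.memy, fun K hK hKU => ?_⟩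
  obtain ⟨Q, h1, h2, h3, h4⟩ := h.approx K hK hKU
  refine ⟨fun n z => Q n z - a, fun n z hz => (h1 n z hz).sub contDiffAt_const, ?_, ?_, ?_⟩
  · rw [Metric.tendstoUniformlyOn_iff] at h2 ⊢
    intro ε hε
    filter_upwards [h2 ε hε] with n hn z hz
    have := hn z hz
    simpa using this
  · simp only [fderiv_sub_const]
    exact h3
  · simp only [fderiv_sub_const]
    exact h4

theorem key_abs' (κ : ℝ) (_hκ : 0 < κ) (K A : Set ℂ) (hA : A ⊆ K) (hAm : MeasurableSet A)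
    (hK : IsCompact K) (η E J T B : ℂ → ℝ) (hηc : Continuous η)
    (hη1 : ∀ z ∈ A, η z = 1)
    (hE : IntegrableOn E K) (hJ : IntegrableOn J K) (hT : IntegrableOn T K)
    (hBi : IntegrableOn B K)
    (h1 : ∫ z in K, η z ^ 2 * J z = - ∫ z in K, T z)
    (h2 : ∀ᵐ z ∂(volume.restrict K), 0 ≤ E z ∧ E z ≤ κ * J z)
    (h3 : ∀ z ∈ K, - κ * T z ≤ (1 / 2) * (η z ^ 2 * E z) + B z) :
    ∫ z in A, E z ≤ 2 * ∫ z in K, B z := by
  have hKm : MeasurableSet K := hK.isClosed.measurableSet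
  have hη2 : ContinuousOn (fun z => η z ^ 2) K := (hηc.pow 2).continuousOn
  have hEi : IntegrableOn (fun z => η z ^ 2 * E z) K := hE.continuousOn_mul hη2 hK
  have hJi : IntegrableOn (fun z => η z ^ 2 * J z) K := hJ.continuousOn_mul hη2 hK
  have e1 : ∫ z in A, E z ≤ ∫ z in K, η z ^ 2 * E z := by
    have e2 : ∫ z in A, E z = ∫ z in A, η z ^ 2 * E z := by
      apply setIntegral_congr_fun hAm
      intro z hz
      simp only [hη1 z hz]; ring
    rw [e2]
    apply setIntegral_mono_set hEi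
    · filter_upwards [h2] with z hz
      exact mul_nonneg (sq_nonneg _) hz.1
    · exact hA.eventuallyLE
  have e3 : ∫ z in K, η z ^ 2 * E z ≤ κ * ∫ z in K, η z ^ 2 * J z := by
    rw [← integral_const_mul]
    apply integral_mono_ae hEi (hJi.const_mul κ)
    filter_upwards [h2] with z hz
    have := mul_le_mul_of_nonneg_left hz.2 (sq_nonneg (η z))
    calc η z ^ 2 * E z ≤ η z ^ 2 * (κ * J z) := this
      _ = κ * (η z ^ 2 * J z) := by ring
  have e4 : κ * ∫ z in K, η z ^ 2 * J z = ∫ z in K, - κ * T z := by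
    rw [h1, integral_const_mul]; ring
  have e5 : ∫ z in K, - κ * T z ≤ ∫ z in K, ((1 / 2) * (η z ^ 2 * E z) + B z) := by
    apply setIntegral_mono_on (hT.const_mul (-κ)) ((hEi.const_mul (1/2)).add hBi) hKm h3
  have e6 : ∫ z in K, ((1 / 2) * (η z ^ 2 * E z) + B z) =
      (1 / 2) * (∫ z in K, η z ^ 2 * E z) + ∫ z in K, B z := by
    rw [integral_add (hEi.const_mul (1/2)) hBi, integral_const_mul]
  linarith [e1, e3, e4, e5, e6]

theorem main : S_Cacc := by
  intro κ hκ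
  obtain ⟨C0, hC0, hcut⟩ := exists_cutoff
  refine ⟨8 * κ ^ 2 * C0 ^ 2, by positivity, ?_⟩
  intro U q qx qy hU hW hQ z₀ r a hr hB
  obtain ⟨η, hη, hηc, hηs, hη0, hη1, hηA, hηd⟩ := hcut z₀ r hr
  have hWa := W_sub_const hW a
  set K := closedBall z₀ (2 * r) with hKdef
  have hK : IsCompact K := isCompact_closedBall _ _
  have hA : closedBall z₀ r ⊆ K := closedBall_subset_closedBall (by linarith)
  have hx := hW.memx K hK hB
  have hy := hW.memy K hK hB
  have hqc : ContinuousOn (fun z => (q z - a).re) K :=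
    continuous_re.comp_continuousOn (hWa.cont.mono hB)
  have hqn : ContinuousOn (fun z => ‖q z - a‖ ^ 2) K :=
    ((hWa.cont.mono hB).norm).pow 2
  have hηcont : Continuous η := hη.continuous
  have hfx : Continuous (fun z => fderiv ℝ η z 1) :=
    (hη.continuous_fderiv (by norm_num)).clm_apply continuous_const
  have hfy : Continuous (fun z => fderiv ℝ η z I) :=
    (hη.continuous_fderiv (by norm_num)).clm_apply continuous_const
  have hst := stokes_sq hWa η K hη hηc hηs hB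
  have hE : IntegrableOn (fun z => ‖qx z‖ ^ 2 + ‖qy z‖ ^ 2) K := by
    have h1 := L2_mul hx.norm hx.norm
    have h2 := L2_mul hy.norm hy.norm
    refine (h1.add h2).congr_fun (fun z _ => ?_) hK.measurableSet
    simp only [Pi.add_apply]; ring
  have hJ : IntegrableOn (fun z => (qx z).re * (qy z).im - (qy z).re * (qx z).im) K :=
    (L2_mul (L2_re hx) (L2_im hy)).sub (L2_mul (L2_re hy) (L2_im hx))
  have hT : IntegrableOn (fun z => (q z - a).re * (2 * η z * (fderiv ℝ η z 1 * (qy z).im -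
      fderiv ℝ η z I * (qx z).im))) K := by
    have h1 : IntegrableOn (fun z => fderiv ℝ η z 1 * (qy z).im) K :=
      (L2_int hK (L2_im hy)).continuousOn_mul hfx.continuousOn hK
    have h2 : IntegrableOn (fun z => fderiv ℝ η z I * (qx z).im) K :=
      (L2_int hK (L2_im hx)).continuousOn_mul hfy.continuousOn hK
    have h3 : IntegrableOn (fun z => 2 * η z * (fderiv ℝ η z 1 * (qy z).im -
      fderiv ℝ η z I * (qx z).im)) K :=
      (h1.sub h2).continuousOn_mul (continuous_const.mul hηcont).continuousOn hK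
    exact h3.continuousOn_mul hqc hK
  have h2 : ∀ᵐ z ∂(volume.restrict K), 0 ≤ ‖qx z‖ ^ 2 + ‖qy z‖ ^ 2 ∧
      ‖qx z‖ ^ 2 + ‖qy z‖ ^ 2 ≤ κ * ((qx z).re * (qy z).im - (qy z).re * (qx z).im) := by
    have := ae_restrict_of_ae_restrict_of_subset hB hQ
    filter_upwards [this] with z hz
    exact ⟨by positivity, hz⟩
  have hBi : IntegrableOn (fun z => 4 * κ ^ 2 * (C0 / r) ^ 2 * ‖q z - a‖ ^ 2) K :=
    (hqn.const_smul (4 * κ ^ 2 * (C0 / r) ^ 2)).integrableOn_compact hK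
  have hfin := key_abs' κ hκ K (closedBall z₀ r) hA
    isClosed_closedBall.measurableSet hK η (fun z => ‖qx z‖ ^ 2 + ‖qy z‖ ^ 2)
    (fun z => (qx z).re * (qy z).im - (qy z).re * (qx z).im)
    (fun z => (q z - a).re * (2 * η z * (fderiv ℝ η z 1 * (qy z).im -
      fderiv ℝ η z I * (qx z).im)))
    (fun z => 4 * κ ^ 2 * (C0 / r) ^ 2 * ‖q z - a‖ ^ 2)
    hηcont hηA hE hJ hT hBi hst h2 ?_
  · refine hfin.trans (le_of_eq ?_)
    rw [integral_const_mul]
    field_simp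
    ring
  · intro z hz
    obtain ⟨ha, hb⟩ := fd_bound (hηd z)
    have hx2 : (qx z).im ^ 2 ≤ ‖qx z‖ ^ 2 := by
      rw [Complex.sq_norm, Complex.normSq_apply]; nlinarith [sq_nonneg (qx z).re]
    have hy2 : (qy z).im ^ 2 ≤ ‖qy z‖ ^ 2 := by
      rw [Complex.sq_norm, Complex.normSq_apply]; nlinarith [sq_nonneg (qy z).re]
    have hq2 : (q z - a).re ^ 2 ≤ ‖q z - a‖ ^ 2 := by
      rw [Complex.sq_norm, Complex.normSq_apply]; nlinarith [sq_nonneg (q z - a).im]
    have hM2 : (q z - a).re ^ 2 * (fderiv ℝ η z 1) ^ 2 ≤ ‖q z - a‖ ^ 2 * (C0 / r) ^ 2 := by gcongr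
    have hM3 : (q z - a).re ^ 2 * (fderiv ℝ η z I) ^ 2 ≤ ‖q z - a‖ ^ 2 * (C0 / r) ^ 2 := by gcongr
    set D := fderiv ℝ η z 1
    set b := fderiv ℝ η z I
    set u := (q z - a).re
    set e := η z
    set s := (qx z).im
    set t := (qy z).im
    have k1 : - κ * (u * (2 * e * (D * t))) ≤ (1 / 2) * (e ^ 2 * t ^ 2) + 2 * κ ^ 2 * (u ^ 2 * D ^ 2) := by
      nlinarith [sq_nonneg (e * t + 2 * κ * u * D)]
    have k2 : κ * (u * (2 * e * (b * s))) ≤ (1 / 2) * (e ^ 2 * s ^ 2) + 2 * κ ^ 2 * (u ^ 2 * b ^ 2) := by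
      nlinarith [sq_nonneg (e * s - 2 * κ * u * b)]
    have k3 : 2 * κ ^ 2 * (u ^ 2 * D ^ 2) ≤ 2 * κ ^ 2 * (‖q z - a‖ ^ 2 * (C0 / r) ^ 2) := by gcongr
    have k4 : 2 * κ ^ 2 * (u ^ 2 * b ^ 2) ≤ 2 * κ ^ 2 * (‖q z - a‖ ^ 2 * (C0 / r) ^ 2) := by gcongr
    have k5 : e ^ 2 * s ^ 2 ≤ e ^ 2 * ‖qx z‖ ^ 2 := by gcongr
    have k6 : e ^ 2 * t ^ 2 ≤ e ^ 2 * ‖qy z‖ ^ 2 := by gcongr
    have k7 : - κ * (u * (2 * e * (D * t - b * s))) =
      - κ * (u * (2 * e * (D * t))) + κ * (u * (2 * e * (b * s))) := by ring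
    rw [k7]
    nlinarith [k1, k2, k3, k4, k5, k6]

end Pool.Agent.W345.PH.Cacc
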